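import Pool.Agent.H.MP_ada34c_an.Defs
import Pool.Agent.H.MP_ada34c_an.D

namespace Pool.Agent.Results.MP_ada34c_an.Yes

open Pool.Agent.H.MP_ada34c_an

theorem result (p : ENNReal) [Fact (1 ≤ p)] (hp : 1 < p) (hp' : p ≠ ⊤) :
    ∃ f : ℕ → LR p, (∀ n, NonNeg (f n)) ∧ IsBasis f :=
  ⟨_, main (by
    rw [← ENNReal.toReal_one]
    exact ENNReal.toReal_strict_mono hp' hp)⟩

end Pool.Agent.Results.MP_ada34c_an.Yes
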